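import Mathlib

set_option autoImplicit false

namespace Pool.Agent.H377Z.Ent

open MeasureTheory Filter
open scoped Pointwise

/-- The `n`-th trajectory `T_n(φ, C) = C + φ C + ... + φ^(n-1) C` (a sum of sets). -/
def traj {G : Type*} [AddCommGroup G] (φ : G →+ G) (C : Set G) (n : ℕ) : Set G :=
  ∑ k ∈ Finset.range n, (φ^[k] '' C)

/-- `H_A(φ, C) = limsup (log μ(T_n(φ, C))) / n`, in the extended reals. -/
noncomputable def entAt {G : Type*} [AddCommGroup G] [MeasurableSpace G] (μ : Measure G)
    (φ : G →+ G) (C : Set G) : EReal :=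
  limsup (fun n : ℕ => ((Real.log (μ (traj φ C n)).toReal / (n : ℝ) : ℝ) : EReal)) atTop

/-- The algebraic entropy `h_A(φ)`: the supremum of `H_A(φ, C)` over all compact neighbourhoods
`C` of zero. -/
noncomputable def ent {G : Type*} [AddCommGroup G] [TopologicalSpace G] [MeasurableSpace G]
    (μ : Measure G) (φ : G →+ G) : EReal :=
  ⨆ C ∈ {C : Set G | IsCompact C ∧ C ∈ nhds (0 : G)}, entAt μ φ C

/-- The restriction of `φ` to an invariant subgroup `K`, as an endomorphism of `K`. -/
def restr {G : Type*} [AddCommGroup G] (φ : G →+ G) (K : AddSubgroup G)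
    (h : ∀ x ∈ K, φ x ∈ K) : K →+ K :=
  (φ.comp K.subtype).codRestrict K (fun x => h x x.2)

end Pool.Agent.H377Z.Ent
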