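import Pool.Agent.H377Z.Ent.Defs

set_option autoImplicit false

namespace Pool.Agent.H377Z.Ent

open MeasureTheory Filter Set Topology
open scoped Pointwise ENNReal

section alg
variable {G : Type*} [AddCommGroup G]

lemma traj_zero (φ : G →+ G) (C : Set G) : traj φ C 0 = 0 := by simp [traj]

lemma image_sum {H : Type*} [AddCommGroup H] (f : G →+ H) (s : Finset ℕ) (A : ℕ → Set G) :
    f '' (∑ k ∈ s, A k) = ∑ k ∈ s, f '' (A k) := by
  classical
  induction s using Finset.induction_on with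
  | empty => simp [Set.singleton_zero]
  | insert a s ha ih => rw [Finset.sum_insert ha, Finset.sum_insert ha, Set.image_add, ih]

lemma traj_succ (φ : G →+ G) (C : Set G) (n : ℕ) :
    traj φ C (n + 1) = C + φ '' traj φ C n := by
  unfold traj
  rw [Finset.sum_range_succ', image_sum, add_comm]
  simp only [Function.iterate_zero, image_id', id_eq, Function.iterate_succ', image_comp]

lemma traj_mono (φ : G →+ G) {C D : Set G} (h : C ⊆ D) (n : ℕ) : traj φ C n ⊆ traj φ D n := by
  induction n with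
  | zero => simp [traj_zero]
  | succ n ih =>
    rw [traj_succ, traj_succ]
    exact Set.add_subset_add h (Set.image_mono ih)

lemma zero_mem_traj (φ : G →+ G) {C : Set G} (h : (0 : G) ∈ C) (n : ℕ) : (0 : G) ∈ traj φ C n := by
  induction n with
  | zero => simp [traj_zero]
  | succ n ih =>
    rw [traj_succ]
    exact ⟨0, h, 0, ⟨0, ih, by simp⟩, by simp⟩

lemma subset_traj (φ : G →+ G) {C : Set G} (h : (0 : G) ∈ C) (n : ℕ) : C ⊆ traj φ C (n + 1) := by
  rw [traj_succ]
  intro x hx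
  exact ⟨x, hx, 0, ⟨0, zero_mem_traj φ h n, by simp⟩, by simp⟩

lemma traj_add_subset (φ : G →+ G) (C : Set G) {W : Set G} (h : (0 : G) ∈ W) (n : ℕ) :
    traj φ C (n + 1) + W ⊆ traj φ (C + W) (n + 1) := by
  rw [traj_succ, traj_succ, add_right_comm]
  refine Set.add_subset_add subset_rfl (Set.image_mono (traj_mono φ ?_ n))
  intro x hx
  exact ⟨x, hx, 0, h, by simp⟩

lemma traj_subset_of_cover (φ : G →+ G) {U F : Set G} (h0 : (0 : G) ∈ U)
    (h : U + φ '' U ⊆ F + U) (n : ℕ) : traj φ U n ⊆ traj φ F n + U := by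
  induction n with
  | zero =>
    rw [traj_zero, traj_zero, zero_add]
    simpa using h0
  | succ n ih =>
    rw [traj_succ, traj_succ]
    calc U + φ '' traj φ U n ⊆ U + φ '' (traj φ F n + U) :=
          Set.add_subset_add subset_rfl (Set.image_mono ih)
      _ = φ '' traj φ F n + (U + φ '' U) := by rw [Set.image_add]; abel
      _ ⊆ φ '' traj φ F n + (F + U) := Set.add_subset_add subset_rfl h
      _ = F + φ '' traj φ F n + U := by abel

lemma image_traj_restr (φ : G →+ G) (K : AddSubgroup G) (h : ∀ x ∈ K, φ x ∈ K) (C : Set K)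
    (n : ℕ) : K.subtype '' traj (restr φ K h) C n = traj φ (K.subtype '' C) n := by
  induction n with
  | zero => simp [traj_zero, Set.singleton_zero]
  | succ n ih =>
    rw [traj_succ, traj_succ, Set.image_add, ← ih, ← image_comp, ← image_comp]
    rfl

end alg

section top
variable {G : Type*} [AddCommGroup G] [TopologicalSpace G] [IsTopologicalAddGroup G]

lemma isCompact_traj {φ : G →+ G} (hφ : Continuous φ) {C : Set G} (hC : IsCompact C) (n : ℕ) :
    IsCompact (traj φ C n) := by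
  induction n with
  | zero => rw [traj_zero]; exact isCompact_singleton
  | succ n ih => rw [traj_succ]; exact hC.add (ih.image hφ)

lemma isCompact_sub {A B : Set G} (hA : IsCompact A) (hB : IsCompact B) : IsCompact (A - B) := by
  rw [sub_eq_add_neg]; exact hA.add hB.neg

omit [IsTopologicalAddGroup G] in
lemma continuous_restr {φ : G →+ G} (hφ : Continuous φ) (K : AddSubgroup G)
    (h : ∀ x ∈ K, φ x ∈ K) : Continuous (restr φ K h) :=
  Continuous.subtype_mk (hφ.comp continuous_subtype_val) _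

end top

/-- Ruzsa covering for an invariant measure. -/
lemma covering {G : Type*} [AddCommGroup G] [MeasurableSpace G] [MeasurableAdd G]
    (μ : Measure G) [μ.IsAddLeftInvariant] (A W : Set G) (hW : MeasurableSet W)
    (h0 : μ W ≠ 0) (hfin : μ (A + W) ≠ ⊤) :
    ∃ S : Finset G, (S : Set G) ⊆ A ∧ A ⊆ (S : Set G) + (W - W) ∧
      (S.card : ℝ≥0∞) * μ W ≤ μ (A + W) := by
  classical
  let P : Finset G → Prop := fun S => (S : Set G) ⊆ A ∧
    (S : Set G).PairwiseDisjoint (fun s => (fun x => -s + x) ⁻¹' W)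
  have hle : ∀ S, P S → (S.card : ℝ≥0∞) * μ W ≤ μ (A + W) := by
    intro S hS
    have h1 : μ (⋃ s ∈ S, (fun x => -s + x) ⁻¹' W) = ∑ s ∈ S, μ ((fun x => -s + x) ⁻¹' W) :=
      measure_biUnion_finset hS.2 (fun s _ => (measurable_const_add _) hW)
    simp only [measure_preimage_add, Finset.sum_const, nsmul_eq_mul] at h1
    rw [← h1]
    refine measure_mono ?_
    intro x hx
    simp only [mem_iUnion, mem_preimage] at hx
    obtain ⟨s, hs, hx⟩ := hx
    exact ⟨s, hS.1 hs, -s + x, hx, by simp⟩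
  obtain ⟨N, hN⟩ : ∃ N : ℕ, μ (A + W) < N * μ W := ENNReal.exists_nat_mul_gt h0 hfin
  have hbd : ∀ S, P S → S.card < N := by
    intro S hS
    by_contra hc
    push Not at hc
    have : (N : ℝ≥0∞) * μ W ≤ (S.card : ℝ≥0∞) * μ W := by
      gcongr
    exact absurd (lt_of_lt_of_le hN (this.trans (hle S hS))) (lt_irrefl _)
  have hex : ∃ S, P S ∧ ∀ T, P T → T.card ≤ S.card := by
    have hne : ∃ n, ∃ S, P S ∧ N - S.card = n := ⟨_, ∅, ⟨by simp, by simp⟩, rfl⟩
    obtain ⟨S, hS, hSn⟩ := Nat.find_spec hne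
    refine ⟨S, hS, fun T hT => ?_⟩
    have h1 := Nat.find_min' hne ⟨T, hT, rfl⟩
    have h2 := hbd S hS
    have h3 := hbd T hT
    omega
  obtain ⟨S, hS, hmax⟩ := hex
  refine ⟨S, hS.1, ?_, hle S hS⟩
  intro a ha
  by_contra hc
  have hWne : W.Nonempty := nonempty_of_measure_ne_zero h0
  have haS : a ∉ S := by
    intro haS
    obtain ⟨w, hw⟩ := hWne
    exact hc ⟨a, haS, w - w, ⟨w, hw, w, hw, rfl⟩, by simp⟩
  have hP : P (insert a S) := by
    constructor
    · rw [Finset.coe_insert]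
      exact insert_subset ha hS.1
    · rw [Finset.coe_insert]
      refine hS.2.insert ?_
      intro s hs _
      rw [Set.disjoint_left]
      intro x hx1 hx2
      exact hc ⟨s, hs, (-s + x) - (-a + x), ⟨_, hx2, _, hx1, rfl⟩, by simp⟩
  have := hmax _ hP
  rw [Finset.card_insert_of_notMem haS] at this
  omega

lemma measure_finset_add_le {G : Type*} [AddCommGroup G] [MeasurableSpace G] [MeasurableAdd G]
    (μ : Measure G) [μ.IsAddLeftInvariant] {ι : Type*} (S : Finset ι) (f : ι → G) (B X : Set G)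
    (h : ∀ x ∈ X, ∃ s ∈ S, -f s + x ∈ B) : μ X ≤ (S.card : ℝ≥0∞) * μ B := by
  calc μ X ≤ μ (⋃ s ∈ S, (fun x => -f s + x) ⁻¹' B) := by
        refine measure_mono ?_
        intro x hx
        obtain ⟨s, hs, hx⟩ := h x hx
        simp only [mem_iUnion, mem_preimage]
        exact ⟨s, hs, hx⟩
    _ ≤ ∑ s ∈ S, μ ((fun x => -f s + x) ⁻¹' B) := measure_biUnion_finset_le _ _
    _ = _ := by simp only [measure_preimage_add, Finset.sum_const, nsmul_eq_mul]

lemma limsup_le_of_mul (a b : ℕ → ℝ≥0∞) (c d : ℝ≥0∞) (hc0 : c ≠ 0) (hc : c ≠ ⊤) (hd : d ≠ ⊤)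
    (ha : ∀ n, a (n + 1) ≠ 0) (hb : ∀ n, b (n + 1) ≠ ⊤)
    (h : ∀ n, a (n + 1) * c ≤ b (n + 1) * d) :
    limsup (fun n : ℕ => ((Real.log (a n).toReal / (n : ℝ) : ℝ) : EReal)) atTop ≤
      limsup (fun n : ℕ => ((Real.log (b n).toReal / (n : ℝ) : ℝ) : EReal)) atTop := by
  have key : ∀ n : ℕ, Real.log (a (n + 1)).toReal ≤
      Real.log (b (n + 1)).toReal + (Real.log d.toReal - Real.log c.toReal) := by
    intro n
    have hbd : b (n + 1) * d ≠ ⊤ := ENNReal.mul_ne_top (hb n) hd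
    have hac : a (n + 1) * c ≠ ⊤ := ne_top_of_le_ne_top hbd (h n)
    have hac0 : a (n + 1) * c ≠ 0 := mul_ne_zero (ha n) hc0
    have hbd0 : b (n + 1) * d ≠ 0 := fun h0 => hac0 (le_antisymm (h0 ▸ h n) (by simp))
    have hat : a (n + 1) ≠ ⊤ := by
      intro ht
      rw [ht, ENNReal.top_mul hc0] at hac
      exact hac rfl
    have h1 : 0 < (a (n + 1)).toReal := ENNReal.toReal_pos (ha n) hat
    have h2 : 0 < c.toReal := ENNReal.toReal_pos hc0 hc
    have h3 : 0 < (b (n + 1)).toReal := ENNReal.toReal_pos (left_ne_zero_of_mul hbd0) (hb n)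
    have h4 : 0 < d.toReal := ENNReal.toReal_pos (right_ne_zero_of_mul hbd0) hd
    have h5 : (a (n + 1)).toReal * c.toReal ≤ (b (n + 1)).toReal * d.toReal := by
      rw [← ENNReal.toReal_mul, ← ENNReal.toReal_mul]
      exact ENNReal.toReal_mono hbd (h n)
    have h6 := Real.log_le_log (mul_pos h1 h2) h5
    rw [Real.log_mul h1.ne' h2.ne', Real.log_mul h3.ne' h4.ne'] at h6
    linarith
  set e : ℝ := Real.log d.toReal - Real.log c.toReal
  refine le_of_forall_gt_imp_ge_of_dense fun y hy => ?_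
  obtain ⟨z, hz1, hz2⟩ := EReal.lt_iff_exists_real_btwn.1 hy
  obtain ⟨w, hw1, hw2⟩ := EReal.lt_iff_exists_real_btwn.1 hz2
  have hzw : z < w := by exact_mod_cast hw1
  have h1 := eventually_lt_of_limsup_lt hz1
  have h2 : ∀ᶠ n : ℕ in atTop, e / (n : ℝ) < w - z :=
    (tendsto_const_div_atTop_nhds_zero_nat e).eventually (gt_mem_nhds (by linarith))
  refine limsup_le_of_le (by isBoundedDefault) ?_
  filter_upwards [h1, h2, eventually_ge_atTop 1] with n hn1 hn2 hn3
  obtain ⟨m, rfl⟩ : ∃ m, n = m + 1 := ⟨n - 1, by omega⟩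
  refine le_trans ?_ hw2.le
  have hn1' : Real.log (b (m + 1)).toReal / ((m + 1 : ℕ) : ℝ) < z := by exact_mod_cast hn1
  have hpos : (0 : ℝ) < ((m + 1 : ℕ) : ℝ) := by positivity
  have h3 : Real.log (a (m + 1)).toReal / ((m + 1 : ℕ) : ℝ) ≤
      Real.log (b (m + 1)).toReal / ((m + 1 : ℕ) : ℝ) + e / ((m + 1 : ℕ) : ℝ) := by
    rw [← add_div]
    exact div_le_div_of_nonneg_right (key m) hpos.le
  have : Real.log (a (m + 1)).toReal / ((m + 1 : ℕ) : ℝ) ≤ w := by linarith
  exact_mod_cast this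

section main
variable {G : Type*} [AddCommGroup G] [TopologicalSpace G] [IsTopologicalAddGroup G]
  [LocallyCompactSpace G] [T2Space G] [MeasurableSpace G] [BorelSpace G]
  (μ : Measure G) [μ.IsAddHaarMeasure] {φ : G →+ G}

omit [IsTopologicalAddGroup G] [LocallyCompactSpace G] [T2Space G] [BorelSpace G]
  [μ.IsAddHaarMeasure] in
lemma le_ent {C : Set G} (h1 : IsCompact C) (h2 : C ∈ nhds (0 : G)) : entAt μ φ C ≤ ent μ φ :=
  le_iSup₂ (f := fun C (_ : C ∈ {C : Set G | IsCompact C ∧ C ∈ nhds (0 : G)}) => entAt μ φ C)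
    C ⟨h1, h2⟩

/-- monotonicity for closed invariant subgroups -/
theorem ent_restr_le (hφ : Continuous φ) (K : AddSubgroup G) (hK : IsClosed (K : Set G))
    (h : ∀ x ∈ K, φ x ∈ K) (ν : Measure K) [ν.IsAddHaarMeasure] :
    ent ν (restr φ K h) ≤ ent μ φ := by
  classical
  refine iSup₂_le fun C hC => ?_
  obtain ⟨hC1, hC2⟩ := hC
  obtain ⟨U, hU1, hU2⟩ := exists_compact_mem_nhds (0 : G)
  have hι : Continuous K.subtype := continuous_subtype_val
  have hU0 : (0 : G) ∈ U := mem_of_mem_nhds hU2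
  have hC0 : (0 : K) ∈ C := mem_of_mem_nhds hC2
  have hD1 : IsCompact (K.subtype '' C + U) := (hC1.image hι).add hU1
  have hD2 : K.subtype '' C + U ∈ nhds (0 : G) := by
    refine mem_of_superset hU2 ?_
    intro x hx
    exact ⟨0, ⟨0, hC0, rfl⟩, x, hx, by simp⟩
  refine le_trans ?_ (le_ent μ hD1 hD2)
  have hB : IsCompact (K.subtype ⁻¹' (U - U)) :=
    hK.isClosedEmbedding_subtypeVal.isCompact_preimage (isCompact_sub hU1 hU1)
  have hUpos : μ U ≠ 0 := (Measure.measure_pos_of_mem_nhds μ hU2).ne'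
  refine limsup_le_of_mul _ _ (μ U) (ν (K.subtype ⁻¹' (U - U))) hUpos hU1.measure_lt_top.ne
    hB.measure_lt_top.ne ?_ ?_ ?_
  · intro n
    exact (Measure.measure_pos_of_mem_nhds ν
      (mem_of_superset hC2 (subset_traj _ hC0 n))).ne'
  · intro n
    exact (isCompact_traj hφ hD1 _).measure_lt_top.ne
  · intro n
    set A := traj (restr φ K h) C (n + 1) with hA
    have hA1 : IsCompact A := isCompact_traj (continuous_restr hφ K h) hC1 _
    obtain ⟨S, hS1, hS2, hS3⟩ := covering μ (K.subtype '' A) U hU1.measurableSet hUpos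
      ((hA1.image hι).add hU1).measure_lt_top.ne
    have h1 : ν A ≤ (S.card : ℝ≥0∞) * ν (K.subtype ⁻¹' (U - U)) := by
      refine measure_finset_add_le ν S (fun s => if hs : s ∈ K then ⟨s, hs⟩ else 0) _ _ ?_
      intro x hx
      obtain ⟨s, hs, y, hy, hxy⟩ := hS2 ⟨x, hx, rfl⟩
      obtain ⟨s', _, hs'⟩ := hS1 hs
      have hsK : s ∈ K := hs' ▸ s'.2
      refine ⟨s, hs, ?_⟩
      simp only [hsK, dif_pos, mem_preimage]
      have : K.subtype (-⟨s, hsK⟩ + x) = y := by
        simp only [map_add, map_neg, ← hxy]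
        simp
      rw [this]; exact hy
    have h2 : μ (K.subtype '' A + U) ≤ μ (traj φ (K.subtype '' C + U) (n + 1)) := by
      refine measure_mono ?_
      rw [hA, image_traj_restr]
      exact traj_add_subset φ _ hU0 n
    calc ν A * μ U ≤ (S.card : ℝ≥0∞) * ν (K.subtype ⁻¹' (U - U)) * μ U := by gcongr
      _ = (S.card : ℝ≥0∞) * μ U * ν (K.subtype ⁻¹' (U - U)) := by ring
      _ ≤ _ := by gcongr; exact hS3.trans h2

theorem entAt_le_restr (hφ : Continuous φ) (K : AddSubgroup G) (hK : IsClosed (K : Set G))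
    (h : ∀ x ∈ K, φ x ∈ K) (ν : Measure K) [ν.IsAddHaarMeasure] {U : Set G} (hU1 : IsCompact U)
    (hU2 : U ∈ nhds (0 : G)) {F : Set K} (hF : IsCompact F) (hF0 : (0 : K) ∈ F)
    (hcov : U + φ '' U ⊆ K.subtype '' F + U) :
    entAt μ φ U ≤ ent ν (restr φ K h) := by
  classical
  have : LocallyCompactSpace K := hK.isClosedEmbedding_subtypeVal.locallyCompactSpace
  obtain ⟨W, hW1, hW2⟩ := exists_compact_mem_nhds (0 : K)
  have hι : Continuous K.subtype := continuous_subtype_val
  have hU0 : (0 : G) ∈ U := mem_of_mem_nhds hU2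
  have hW0 : (0 : K) ∈ W := mem_of_mem_nhds hW2
  have hD1 : IsCompact (F + W) := hF.add hW1
  have hD2 : F + W ∈ nhds (0 : K) := by
    refine mem_of_superset hW2 ?_
    intro x hx
    exact ⟨0, hF0, x, hx, by simp⟩
  refine le_trans ?_ (le_ent ν hD1 hD2)
  have hB : IsCompact (K.subtype '' (W - W) + U) := ((isCompact_sub hW1 hW1).image hι).add hU1
  have hWpos : ν W ≠ 0 := (Measure.measure_pos_of_mem_nhds ν hW2).ne'
  have hr := continuous_restr hφ K h
  refine limsup_le_of_mul _ _ (ν W) (μ (K.subtype '' (W - W) + U)) hWpos hW1.measure_lt_top.ne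
    hB.measure_lt_top.ne ?_ ?_ ?_
  · intro n
    exact (Measure.measure_pos_of_mem_nhds μ
      (mem_of_superset hU2 (subset_traj _ hU0 n))).ne'
  · intro n
    exact (isCompact_traj hr hD1 _).measure_lt_top.ne
  · intro n
    set A := traj (restr φ K h) F (n + 1) with hA
    have hA1 : IsCompact A := isCompact_traj hr hF _
    obtain ⟨S, hS1, hS2, hS3⟩ := covering ν A W hW1.measurableSet hWpos
      (hA1.add hW1).measure_lt_top.ne
    have h1 : μ (traj φ U (n + 1)) ≤ (S.card : ℝ≥0∞) * μ (K.subtype '' (W - W) + U) := by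
      refine measure_finset_add_le μ S (fun s => K.subtype s) _ _ ?_
      intro x hx
      have hx' := traj_subset_of_cover φ hU0 hcov (n + 1) hx
      rw [← image_traj_restr φ K h] at hx'
      obtain ⟨_, ⟨a, ha, rfl⟩, u, hu, rfl⟩ := hx'
      obtain ⟨s, hs, y, hy, rfl⟩ := hS2 ha
      refine ⟨s, hs, K.subtype y, ⟨y, hy, rfl⟩, u, hu, ?_⟩
      simp only [map_add]
      abel
    have h2 : ν (A + W) ≤ ν (traj (restr φ K h) (F + W) (n + 1)) :=
      measure_mono (traj_add_subset _ _ hW0 n)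
    calc μ (traj φ U (n + 1)) * ν W
        ≤ (S.card : ℝ≥0∞) * μ (K.subtype '' (W - W) + U) * ν W := by gcongr
      _ = (S.card : ℝ≥0∞) * ν W * μ (K.subtype '' (W - W) + U) := by ring
      _ ≤ _ := by gcongr; exact hS3.trans h2

theorem upper_continuous (hφ : Continuous φ) {I : Type*} (K : I → AddSubgroup G)
    (hcl : ∀ i, IsClosed (K i : Set G)) (hinv : ∀ i, ∀ x ∈ K i, φ x ∈ K i)
    (hdir : Directed (· ≤ ·) K) (hden : Dense (⋃ i, (K i : Set G)))
    (ν : ∀ i, Measure (K i)) [∀ i, (ν i).IsAddHaarMeasure] :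
    ent μ φ = ⨆ i, ent (ν i) (restr φ (K i) (hinv i)) := by
  classical
  refine le_antisymm ?_ (iSup_le fun i => ent_restr_le μ hφ (K i) (hcl i) (hinv i) (ν i))
  refine iSup₂_le fun U hU => ?_
  obtain ⟨hU1, hU2⟩ := hU
  have hne : Nonempty I := by
    obtain ⟨x, hx⟩ := hden.nonempty
    obtain ⟨i, _⟩ := mem_iUnion.1 hx
    exact ⟨i⟩
  have hc : IsCompact (U + φ '' U) := hU1.add (hU1.image hφ)
  obtain ⟨T, hT⟩ := hc.elim_finite_subcover
    (fun x : (⋃ i, (K i : Set G)) => (fun y => -(x : G) + y) ⁻¹' interior U)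
    (fun x => isOpen_interior.preimage (by fun_prop)) (by
      intro y _
      have ho : IsOpen ((fun x => -x + y) ⁻¹' interior U) :=
        isOpen_interior.preimage (by fun_prop)
      obtain ⟨x, hx1, hx2⟩ := hden.inter_open_nonempty _ ho
        ⟨y, by simpa using mem_interior_iff_mem_nhds.2 hU2⟩
      exact mem_iUnion.2 ⟨⟨x, hx2⟩, hx1⟩)
  have hidx : ∀ x : (⋃ i, (K i : Set G)), ∃ i, (x : G) ∈ K i := fun x => by
    obtain ⟨i, hi⟩ := mem_iUnion.1 x.2
    exact ⟨i, hi⟩
  choose idx hidx using hidx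
  obtain ⟨i, hi⟩ := hdir.finset_le (T.image idx)
  have hTi : ∀ x ∈ T, (x : G) ∈ K i := fun x hx =>
    hi (idx x) (Finset.mem_image_of_mem _ hx) (hidx x)
  refine le_trans ?_ (le_iSup (fun i => ent (ν i) (restr φ (K i) (hinv i))) i)
  let F : Set (K i) := insert 0 ((K i).subtype ⁻¹' (Subtype.val '' (T : Set (⋃ i, (K i : Set G)))))
  have hF : F.Finite := by
    refine Set.Finite.insert _ ?_
    exact (T.finite_toSet.image _).preimage (Subtype.val_injective.injOn)
  refine entAt_le_restr μ hφ (K i) (hcl i) (hinv i) (ν i) hU1 hU2 hF.isCompact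
    (mem_insert _ _) ?_
  intro y hy
  have := hT hy
  simp only [mem_iUnion, mem_preimage] at this
  obtain ⟨x, hx, hxy⟩ := this
  refine ⟨x, ⟨⟨x, hTi x hx⟩, Or.inr ⟨x, hx, rfl⟩, rfl⟩, -(x : G) + y, interior_subset hxy, by simp⟩

end main

end Pool.Agent.H377Z.Ent
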